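import Pool.Agent.Helper43.AX.St

set_option autoImplicit false

namespace Pool.Agent.Helper26.AX

open Pool.Agent.Helper43.AX Pool.Agent.Helper43.GD

theorem hPT (hVC : StVC) : StPT := by
  intro p q G _ a b t l L _ x E σ hC
  obtain ⟨-, -, -, hV4, -⟩ := hVC p q G a b t l L x E σ hC
  obtain ⟨hrel, hrd⟩ := hC
  have hvv := hrel.vv
  have hvt := hrel.vt
  have hab : a * b * a = (a * b * a) := rfl
  -- membership
  have htP : t ∈ P t l E := Subgroup.subset_closure (Or.inr (Or.inl rfl))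
  have hlP : l ∈ P t l E := Subgroup.subset_closure (Or.inr (Or.inr rfl))
  have hEP : ∀ c, E c ∈ P t l E := fun c => Subgroup.subset_closure (Or.inl ⟨c, rfl⟩)
  have htz : ∀ j : ℤ, t ^ j ∈ P t l E := fun j => (P t l E).zpow_mem htP j
  have hln : ∀ n : ℕ, l ^ n ∈ P t l E := fun n => (P t l E).pow_mem hlP n
  -- the additive map
  have hE0 : E 0 = 1 := by
    have h := hrd.add 0 0
    rw [add_zero] at h
    exact (mul_eq_left.1 h.symm)
  have hEneg : ∀ c, E (-c) = (E c)⁻¹ := by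
    intro c
    have h := hrd.add c (-c)
    rw [add_neg_cancel, hE0] at h
    exact (eq_inv_of_mul_eq_one_right h.symm)
  have htE : ∀ (i : ℤ) (c : L), t ^ (-i) * E c * t ^ i = E (((x ^ i : Lˣ) : L) * c) := by
    intro i
    induction i using Int.induction_on with
    | zero => intro c; simp
    | succ n ih =>
      intro c
      have h1 : ((x ^ ((n : ℤ) + 1) : Lˣ) : L) * c = (x : L) * (((x ^ (n : ℤ) : Lˣ) : L) * c) := by
        rw [zpow_add, zpow_one, Units.val_mul]; ring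
      rw [h1, ← hrd.tE, ← ih c]
      group
    | pred n ih =>
      intro c
      have h1 : (x : L) * (((x ^ (-(n : ℤ) - 1) : Lˣ) : L) * c) = ((x ^ (-(n : ℤ)) : Lˣ) : L) * c := by
        have h2 : ((x ^ (-(n : ℤ)) : Lˣ) : L) = (x : L) * ((x ^ (-(n : ℤ) - 1) : Lˣ) : L) := by
          rw [← Units.val_mul, ← zpow_one_add]
          congr 2
          ring
        rw [h2]; ring
      have h3 := hrd.tE (((x ^ (-(n : ℤ) - 1) : Lˣ) : L) * c)
      rw [h1, ← ih c] at h3
      have h4 : E (((x ^ (-(n : ℤ) - 1) : Lˣ) : L) * c) =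
          t * (t⁻¹ * E (((x ^ (-(n : ℤ) - 1) : Lˣ) : L) * c) * t) * t⁻¹ := by group
      rw [h4, h3]
      group
  have hlE1 : ∀ c, l * E c * l⁻¹ = E (σ.symm c) := by
    intro c
    have h := hrd.lE (σ.symm c)
    rw [RingEquiv.apply_symm_apply] at h
    rw [← h]
    group
  have hlE : ∀ (n : ℕ) (c : L), l ^ n * E c * (l ^ n)⁻¹ = E ((σ.symm^[n]) c) := by
    intro n
    induction n with
    | zero => intro c; simp
    | succ n ih =>
      intro c
      rw [Function.iterate_succ_apply', ← hlE1, ← ih c, pow_succ']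
      group
  -- v
  obtain ⟨v, hv⟩ : ∃ v, v = a * b * a := ⟨_, rfl⟩
  rw [← hv] at hvv hvt
  simp only [← hv] at hV4 ⊢
  have hvtz : ∀ j : ℤ, v⁻¹ * t ^ j * v = t ^ (-((q ^ p : ℕ) : ℤ) * j) := by
    intro j
    have h1 : v⁻¹ * t ^ j * v = (v⁻¹ * t * v) ^ j := by
      have := conj_zpow (i := j) (a := v⁻¹) (b := t)
      rw [inv_inv] at this
      exact this.symm
    rw [h1, hvt, zpow_mul, zpow_neg, zpow_natCast]
  have hlv : l * v = v * l := by
    rw [hv]
    have h1 := hrel.la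
    have h2 := hrel.lb
    calc l * (a * b * a) = (l * a) * b * a := by group
      _ = a * (l * b) * a := by rw [h1]; group
      _ = a * b * (l * a) := by rw [h2]; group
      _ = a * b * a * l := by rw [h1]; group
  have hlvn : ∀ n : ℕ, v⁻¹ * (l ^ n)⁻¹ * v = (l ^ n)⁻¹ := by
    intro n
    have h1 : Commute v (l ^ n)⁻¹ := ((show Commute v l from hlv.symm).pow_right n).inv_right
    rw [mul_assoc, ← h1.eq, inv_mul_cancel_left]
  have hai : ∀ i : ℤ, t ^ (-i) * a * t ^ i = E ((x ^ i : Lˣ) : L) := by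
    intro i
    have h := htE i 1
    rwa [mul_one, hrd.one] at h
  have hbi : ∀ i : ℤ, cj b t i = (E ((x ^ i : Lˣ) : L))⁻¹ * (v * t ^ ((((q ^ p : ℕ) : ℤ) + 1) * i)) *
      (E ((x ^ i : Lˣ) : L))⁻¹ := by
    intro i
    have h1 : v * t ^ ((((q ^ p : ℕ) : ℤ) + 1) * i) = t ^ (-i) * v * t ^ i := by
      have h2 := hvtz (-i)
      rw [neg_mul_neg] at h2
      have h3 : v⁻¹ * t ^ (-i) * v * t ^ i = t ^ ((((q ^ p : ℕ) : ℤ) + 1) * i) := by
        rw [h2, ← zpow_add]
        congr 1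
        ring
      rw [← h3]
      group
    rw [h1, ← hai, hv]
    unfold cj
    group
  have hA : ∀ i : ℤ, (cj b t i)⁻¹ * (E (-((x ^ i : Lˣ) : L)) * v) ∈ P t l E := by
    intro i
    have h1 : (cj b t i)⁻¹ * (E (-((x ^ i : Lˣ) : L)) * v) =
        E ((x ^ i : Lˣ) : L) * t ^ (-((((q ^ p : ℕ) : ℤ) + 1) * i)) := by
      rw [hbi, hEneg, zpow_neg]
      group
    rw [h1]
    exact (P t l E).mul_mem (hEP _) (htz _)
  have hB : ∀ i : ℤ, (cj b t i) * (E ((x ^ i : Lˣ) : L) * v) ∈ P t l E := by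
    intro i
    have h1 : (cj b t i) * (E ((x ^ i : Lˣ) : L) * v) =
        (E ((x ^ i : Lˣ) : L))⁻¹ * ((v * v) *
          (v⁻¹ * t ^ ((((q ^ p : ℕ) : ℤ) + 1) * i) * v)) := by
      rw [hbi]
      group
    rw [h1, hvv, hvtz]
    exact (P t l E).mul_mem ((P t l E).inv_mem (hEP _)) ((P t l E).mul_mem (hln _) (htz _))
  refine ⟨hA, hB, ?_, ?_, ?_, ?_⟩
  · intro j c
    have h1 := htE (-j) c
    rw [neg_neg] at h1
    have h2 : (t ^ j * (E c * v))⁻¹ * (E (((x ^ (-j) : Lˣ) : L) * c) * v) = v⁻¹ * t ^ (-j) * v := by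
      rw [← h1]
      group
    rw [h2, hvtz]
    exact htz _
  · intro c
    have h2 : (l ^ p * (E c * v))⁻¹ * (E ((σ.symm^[p]) c) * v) = v⁻¹ * (l ^ p)⁻¹ * v := by
      rw [← hlE]
      group
    rw [h2, hlvn]
    exact (P t l E).inv_mem (hln _)
  · intro i
    have h1 := hV4 i
    have h2 : v⁻¹ * (E ((x ^ i : Lˣ) : L) * v) = cj b t (-((q ^ p : ℕ) : ℤ) * i) := by
      rw [← h1]; group
    rw [h2]
    exact hA _
  · intro i
    have h1 := hV4 i
    have h2 : (v⁻¹ * (E (-((x ^ i : Lˣ) : L)) * v))⁻¹ = cj b t (-((q ^ p : ℕ) : ℤ) * i) := by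
      rw [← h1, hEneg]; group
    rw [h2]
    exact hB _

end Pool.Agent.Helper26.AX
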